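import Pool.Agent.Work.MP_0c1793_al.T.Fun

/-!
# Finite generation of cohomology for doubles of supergroup schemes with diagonalizable even part

All definitions of the statement are in `Pool/Agent/Work/MP_0c1793_al/Model.lean`.
-/

set_option autoImplicit false

universe u

open scoped ModuleCat

namespace Pool.Agent.Results.MP_0c1793_al.DiagonalizableEvenPart

open Pool.Agent.Work.MP_0c1793_al

/-- **The finite generation property for `D(G)`**: the algebra `Ext^*(1, 1)` is generated by
finitely many homogeneous elements, and for every finite dimensional `V` there are finitely many
homogeneous elements which generate `Ext^*(1, V)` as a module over `Ext^*(1, 1)`. -/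
theorem result (k : Type u) [Field k] (h2 : (2 : k) ≠ 0) (X : Type) [AddCommGroup X] [Fintype X]
    [DecidableEq X] (G : HCData k X) :
    Pool.Agent.DG.FGC.{u} k (unitMod G) (fun V => Module.Finite k V) :=
  mainD G h2

end Pool.Agent.Results.MP_0c1793_al.DiagonalizableEvenPart
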